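import Pool.Agent.helper83.OD.Spec
import Pool.Agent.helper81.PMDissect

set_option autoImplicit false

open Finset PowerSeries

namespace Pool.Agent.OD

open Pool.Agent.EP

theorem V1_sq (u : ℕ) (hu : u.Coprime 6) : ∃ i : ℤ, (u : ℤ) ^ 2 = (6 * i - 1) ^ 2 := by
  have h1 : u % 6 = 1 ∨ u % 6 = 5 := by
    have h2 : u % 6 < 6 := Nat.mod_lt _ (by norm_num)
    have h3 : (u % 6).Coprime 6 := by
      have := hu
      unfold Nat.Coprime at this ⊢
      rw [← Nat.gcd_rec] at *
      rw [Nat.gcd_comm] at this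
      rw [← this, Nat.gcd_rec 6 u]
    interval_cases h : u % 6 <;> revert h3 <;> decide
  rcases h1 with h1 | h1
  · refine ⟨-((u / 6 : ℕ) : ℤ), ?_⟩
    have h2 : (u : ℤ) = 6 * ((u / 6 : ℕ) : ℤ) + 1 := by omega
    rw [h2]
    ring
  · refine ⟨((u / 6 : ℕ) : ℤ) + 1, ?_⟩
    have h2 : (u : ℤ) = 6 * ((u / 6 : ℕ) : ℤ) + 5 := by omega
    rw [h2]
    ring

theorem V1_abs (i : ℤ) : (6 * i - 1).natAbs.Coprime 6 ∧
    (((6 * i - 1).natAbs : ℕ) : ℤ) ^ 2 = (6 * i - 1) ^ 2 := by
  refine ⟨?_, Int.natAbs_sq _⟩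
  have h1 : (6 * i - 1).natAbs % 6 = 1 ∨ (6 * i - 1).natAbs % 6 = 5 := by omega
  unfold Nat.Coprime
  rw [Nat.gcd_comm, Nat.gcd_rec]
  rcases h1 with h1 | h1 <;> rw [h1] <;> rfl

theorem V1 : V1_stmt := by
  classical
  intro N
  have h2 : vvx.coeff N = (HahnSeries.ofPowerSeries ℤ (ZMod 2)
      (PowerSeries.expand 24 (by norm_num) helper81.EE)).coeff (N - 1) := by
    have h3 := HahnSeries.coeff_single_mul_add (r := (1 : ZMod 2))
      (x := HahnSeries.ofPowerSeries ℤ (ZMod 2)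
        (PowerSeries.expand 24 (by norm_num) helper81.EE)) (a := N - 1) (b := (1 : ℤ))
    rw [one_mul, sub_add_cancel] at h3
    unfold vvx
    rw [h3]
  rw [h2, PowerSeries.coeff_coe]
  by_cases h0 : N - 1 < 0
  · rw [if_pos h0, if_neg]
    rintro ⟨u, hu, hN⟩
    have hu0 : u ≠ 0 := by
      rintro rfl
      exact absurd hu (by decide)
    have : (1 : ℤ) ≤ (u : ℤ) ^ 2 := by
      have : (1 : ℤ) ≤ u := by omega
      nlinarith
    omega
  · rw [if_neg h0, PowerSeries.coeff_expand]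
    obtain ⟨k, hk⟩ : ∃ k : ℕ, N - 1 = k := ⟨(N - 1).toNat, by omega⟩
    rw [hk, Int.natAbs_natCast]
    by_cases h5 : 24 ∣ k
    · obtain ⟨j, rfl⟩ := h5
      rw [if_pos (Dvd.intro j rfl), Nat.mul_div_cancel_left j (by norm_num), helper81.coeff_EE]
      have hiff : j ∈ Set.range pentagonal ↔ ∃ u : ℕ, u.Coprime 6 ∧ N = (u : ℤ) ^ 2 := by
        constructor
        · rintro ⟨i, rfl⟩
          obtain ⟨h6, h7⟩ := V1_abs i
          refine ⟨(6 * i - 1).natAbs, h6, ?_⟩
          rw [h7]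
          have h8 := two_mul_natCast_pentagonal i
          push_cast at hk
          linear_combination hk + 12 * h8
        · rintro ⟨u, hu, hN⟩
          obtain ⟨i, hi⟩ := V1_sq u hu
          refine ⟨i, ?_⟩
          have h8 := two_mul_natCast_pentagonal i
          have h9 : (24 : ℤ) * (pentagonal i : ℤ) = 24 * (j : ℤ) := by
            push_cast at hk
            linear_combination 12 * h8 + hk - hN - hi
          omega
      by_cases h6 : j ∈ Set.range pentagonal
      · rw [if_pos h6, if_pos (hiff.1 h6)]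
      · rw [if_neg h6, if_neg fun h => h6 (hiff.2 h)]
    · rw [if_neg h5, if_neg]
      rintro ⟨u, hu, hN⟩
      obtain ⟨i, hi⟩ := V1_sq u hu
      apply h5
      have h6 : (k : ℤ) = 12 * (i * (3 * i - 1)) := by
        linear_combination -hk + hN + hi
      have h7 : (2 : ℤ) ∣ i * (3 * i - 1) := by
        rcases Int.even_or_odd i with h | h
        · exact Dvd.dvd.mul_right h.two_dvd _
        · obtain ⟨r, hr⟩ := h
          refine Dvd.dvd.mul_left ⟨3 * r + 1, ?_⟩ _
          rw [hr]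
          ring
      obtain ⟨r, hr⟩ := h7
      have h8 : (24 : ℤ) ∣ k := ⟨r, by rw [h6, hr]; ring⟩
      exact_mod_cast h8

end Pool.Agent.OD
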